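import Pool.Agent.Run7.h148.AX.Stm1

/-! Project AX (helper148), piece CR1: three Tonelli bounds with the Gronwall weight. -/

set_option autoImplicit false

open MeasureTheory Set Filter Topology
open scoped ENNReal ContDiff FourierTransform

namespace Pool.Agent.Run7.h148.AX

theorem CR1_ftc (g g' : ℝ → ℝ) (s T : ℝ) (hsT : s ≤ T) (hd : ∀ t, HasDerivAt g (g' t) t)
    (hc : Continuous g') (hn : ∀ t, g' t ≤ 0) (hT : 0 ≤ g T) :
    ∫⁻ t in Icc s T, ENNReal.ofReal (-(g' t)) ≤ ENNReal.ofReal (g s) := by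
  have hi : IntegrableOn (fun t => -(g' t)) (Icc s T) := hc.neg.integrableOn_Icc
  rw [← ofReal_integral_eq_lintegral_ofReal hi
    (Eventually.of_forall fun t => by simpa using hn t)]
  apply ENNReal.ofReal_le_ofReal
  rw [integral_Icc_eq_integral_Ioc, ← intervalIntegral.integral_of_le hsT,
    intervalIntegral.integral_neg,
    intervalIntegral.integral_eq_sub_of_hasDerivAt (fun t _ => hd t) (hc.intervalIntegrable _ _)]
  linarith

/-- the real Gronwall weight -/
noncomputable def CR1_phi (μ : ℝ) (H : ℝ → ℝ) (t : ℝ) : ℝ :=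
  Real.exp (-(μ * ∫ s in (0 : ℝ)..t, H s ^ 2))

theorem CR1_phi_deriv (μ : ℝ) (H : ℝ → ℝ) (hH : Continuous H) (t : ℝ) :
    HasDerivAt (CR1_phi μ H) (-(μ * H t ^ 2 * CR1_phi μ H t)) t := by
  have h1 : HasDerivAt (fun u => ∫ s in (0 : ℝ)..u, H s ^ 2) (H t ^ 2) t :=
    ((hH.pow 2).integral_hasStrictDerivAt 0 t).hasDerivAt
  have h2 : HasDerivAt (fun u => -(μ * ∫ s in (0 : ℝ)..u, H s ^ 2)) (-(μ * H t ^ 2)) t :=
    (h1.const_mul μ).fun_neg
  have h3 := h2.exp
  have e : -(μ * H t ^ 2 * CR1_phi μ H t) =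
      Real.exp (-(μ * ∫ s in (0 : ℝ)..t, H s ^ 2)) * -(μ * H t ^ 2) := by
    unfold CR1_phi
    ring
  rw [e]
  exact h3

theorem CR1_phi_cont (μ : ℝ) (H : ℝ → ℝ) (hH : Continuous H) : Continuous (CR1_phi μ H) :=
  continuous_iff_continuousAt.2 fun t => (CR1_phi_deriv μ H hH t).continuousAt

theorem CR1_phi_pos (μ : ℝ) (H : ℝ → ℝ) (t : ℝ) : 0 < CR1_phi μ H t := Real.exp_pos _

theorem CR1_phi_anti (μ : ℝ) (H : ℝ → ℝ) (hμ : 0 ≤ μ) (hH : Continuous H) :
    Antitone (CR1_phi μ H) := by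
  apply antitone_of_deriv_nonpos (fun t => (CR1_phi_deriv μ H hH t).differentiableAt)
  intro t
  rw [(CR1_phi_deriv μ H hH t).deriv]
  have := CR1_phi_pos μ H t
  have : 0 ≤ μ * H t ^ 2 * CR1_phi μ H t := by positivity
  linarith

theorem CR1_th (μ : ℝ) (H : ℝ → ℝ) (t : ℝ) : th μ H t = ENNReal.ofReal (CR1_phi μ H t) := rfl

theorem CR1_th_meas (μ : ℝ) (H : ℝ → ℝ) (hH : Continuous H) : Measurable (th μ H) :=
  (CR1_phi_cont μ H hH).measurable.ennreal_ofReal

theorem CR1_iw : Measurable iw := (measurable_norm.inv).ennreal_ofReal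
theorem CR1_nw : Measurable nw := measurable_norm.ennreal_ofReal

theorem CR1_ht (κ : ℝ) : Measurable fun p : E3 × ℝ => ENNReal.ofReal (ht κ p.1 p.2) := by
  refine Measurable.ennreal_ofReal ?_
  unfold ht
  exact Continuous.measurable (by fun_prop)

theorem CR1_ht3 (κ : ℝ) :
    Measurable fun p : (ℝ × E3) × ℝ => ENNReal.ofReal (ht κ p.1.2 (p.1.1 - p.2)) := by
  refine Measurable.ennreal_ofReal ?_
  unfold ht
  exact Continuous.measurable (by fun_prop)

theorem CR1_htl (κ s : ℝ) (ξ : E3) : Measurable fun t => ENNReal.ofReal (ht κ ξ (t - s)) := by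
  refine Measurable.ennreal_ofReal ?_
  unfold ht
  exact Continuous.measurable (by fun_prop)

theorem CR1_htr (κ t : ℝ) (ξ : E3) : Measurable fun s => ENNReal.ofReal (ht κ ξ (t - s)) := by
  refine Measurable.ennreal_ofReal ?_
  unfold ht
  exact Continuous.measurable (by fun_prop)

theorem CR1_ht_le (κ : ℝ) (hκ : 0 < κ) (ξ : E3) (r : ℝ) (hr : 0 ≤ r) :
    ENNReal.ofReal (ht κ ξ r) ≤ 1 := by
  rw [← ENNReal.ofReal_one]
  apply ENNReal.ofReal_le_ofReal
  unfold ht
  apply Real.exp_le_one_iff.2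
  have : 0 ≤ κ * ‖ξ‖ ^ 2 * r := by positivity
  linarith

/-- the kernel -/
noncomputable def CR1_K (κ : ℝ) (F q : ℝ → E3 → ℝ≥0∞) (t : ℝ) (ξ : E3) (s : ℝ) : ℝ≥0∞ :=
  (Iic t).indicator (fun s => q t ξ * ENNReal.ofReal (ht κ ξ (t - s)) * F s ξ) s

theorem CR1_K_meas (κ : ℝ) (F : ℝ → E3 → ℝ≥0∞) (hF : Measurable (Function.uncurry F))
    (q : ℝ → E3 → ℝ≥0∞) (hq : Measurable (Function.uncurry q)) :
    Measurable fun p : (ℝ × E3) × ℝ => CR1_K κ F q p.1.1 p.1.2 p.2 := by
  have m1 : Measurable fun p : (ℝ × E3) × ℝ => q p.1.1 p.1.2 := hq.comp measurable_fst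
  have m2 := CR1_ht3 κ
  have m3 : Measurable fun p : (ℝ × E3) × ℝ => F p.2 p.1.2 :=
    hF.comp (measurable_snd.prodMk measurable_fst.snd)
  have hS : MeasurableSet {p : (ℝ × E3) × ℝ | p.2 ≤ p.1.1} :=
    measurableSet_le measurable_snd measurable_fst.fst
  have e : (fun p : (ℝ × E3) × ℝ => CR1_K κ F q p.1.1 p.1.2 p.2) =
      {p : (ℝ × E3) × ℝ | p.2 ≤ p.1.1}.indicator
        (fun p => q p.1.1 p.1.2 * ENNReal.ofReal (ht κ p.1.2 (p.1.1 - p.2)) * F p.2 p.1.2) := by
    funext p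
    unfold CR1_K
    by_cases h : p.2 ≤ p.1.1
    · rw [indicator_of_mem (show p.2 ∈ Iic p.1.1 from h), indicator_of_mem (by exact h)]
    · rw [indicator_of_notMem (show p.2 ∉ Iic p.1.1 from h), indicator_of_notMem (by exact h)]
  rw [e]
  exact ((m1.mul m2).mul m3).indicator hS

theorem CR1_K_one (κ T : ℝ) (F : ℝ → E3 → ℝ≥0∞) (hF : Measurable (Function.uncurry F))
    (q : ℝ → E3 → ℝ≥0∞) (t : ℝ) (ht' : t ∈ Ioc 0 T) (ξ : E3) :
    q t ξ * dh κ F t ξ = ∫⁻ s in Ioc 0 T, CR1_K κ F q t ξ s := by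
  have hFs : Measurable fun s => F s ξ := hF.comp (measurable_id.prodMk measurable_const)
  have e' : Iic t ∩ Ioc 0 T = Ioc 0 t := by
    ext s
    simp only [mem_inter_iff, mem_Iic, mem_Ioc]
    constructor
    · rintro ⟨a, b, c⟩; exact ⟨b, a⟩
    · rintro ⟨a, b⟩; exact ⟨b, a, b.trans ht'.2⟩
  have e : ∫⁻ s in Ioc 0 T, CR1_K κ F q t ξ s =
      ∫⁻ s in Ioc 0 T, (Iic t).indicator
        (fun s => q t ξ * ENNReal.ofReal (ht κ ξ (t - s)) * F s ξ) s := rfl
  have m : Measurable fun s => ENNReal.ofReal (ht κ ξ (t - s)) * F s ξ :=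
    (CR1_htr κ t ξ).mul hFs
  rw [e, lintegral_indicator measurableSet_Iic, Measure.restrict_restrict measurableSet_Iic, e']
  unfold dh
  rw [← lintegral_const_mul _ m]
  refine lintegral_congr fun s => ?_
  rw [mul_assoc]

theorem CR1_K_two (κ T : ℝ) (F : ℝ → E3 → ℝ≥0∞)
    (θ : ℝ → ℝ≥0∞) (q : ℝ → E3 → ℝ≥0∞)
    (hq : Measurable (Function.uncurry q)) (s : ℝ) (hs : s ∈ Ioc 0 T) (ξ : E3)
    (hb : ∫⁻ t in Icc s T, q t ξ * ENNReal.ofReal (ht κ ξ (t - s)) ≤ θ s * iw ξ) :
    ∫⁻ t in Ioc 0 T, CR1_K κ F q t ξ s ≤ θ s * (iw ξ * F s ξ) := by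
  have e : ∫⁻ t in Ioc 0 T, CR1_K κ F q t ξ s =
      ∫⁻ t in Ioc 0 T, (Ici s).indicator
        (fun t => q t ξ * ENNReal.ofReal (ht κ ξ (t - s)) * F s ξ) t := by
    refine lintegral_congr fun t => ?_
    unfold CR1_K
    by_cases h : s ≤ t
    · rw [indicator_of_mem (show t ∈ Ici s from h), indicator_of_mem (show s ∈ Iic t from h)]
    · rw [indicator_of_notMem (show t ∉ Ici s from h),
        indicator_of_notMem (show s ∉ Iic t from h)]
  have e' : Ici s ∩ Ioc 0 T = Icc s T := by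
    ext t
    simp only [mem_inter_iff, mem_Ici, mem_Ioc, mem_Icc]
    constructor
    · rintro ⟨a, b, c⟩; exact ⟨a, c⟩
    · rintro ⟨a, b⟩; exact ⟨a, lt_of_lt_of_le hs.1 a, b⟩
  have m1 : Measurable fun t => q t ξ := hq.comp (measurable_id.prodMk measurable_const)
  have m2 := CR1_htl κ s ξ
  have m : Measurable fun t => q t ξ * ENNReal.ofReal (ht κ ξ (t - s)) := m1.mul m2
  rw [e, lintegral_indicator measurableSet_Ici, Measure.restrict_restrict measurableSet_Ici, e',
    lintegral_mul_const _ m, ← mul_assoc]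
  exact mul_le_mul_left hb _

theorem CR1_gen (κ T : ℝ) (F : ℝ → E3 → ℝ≥0∞) (hF : Measurable (Function.uncurry F))
    (θ : ℝ → ℝ≥0∞) (hθ : Measurable θ) (q : ℝ → E3 → ℝ≥0∞)
    (hq : Measurable (Function.uncurry q))
    (hb : ∀ s ∈ Ioc 0 T, ∀ ξ,
      ∫⁻ t in Icc s T, q t ξ * ENNReal.ofReal (ht κ ξ (t - s)) ≤ θ s * iw ξ) :
    ∫⁻ t in Ioc 0 T, ∫⁻ ξ, q t ξ * dh κ F t ξ ≤
      ∫⁻ s in Ioc 0 T, θ s * ∫⁻ ξ, iw ξ * F s ξ := by
  have hKm := CR1_K_meas κ F hF q hq
  have hm1 : Measurable fun p : ℝ × E3 => ∫⁻ s in Ioc 0 T, CR1_K κ F q p.1 p.2 s :=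
    hKm.lintegral_prod_right'
  have hm2 : ∀ ξ, Measurable fun p : ℝ × ℝ => CR1_K κ F q p.1 ξ p.2 := fun ξ =>
    hKm.comp ((measurable_fst.prodMk measurable_const).prodMk measurable_snd)
  have hm3 : Measurable fun p : E3 × ℝ => θ p.2 * (iw p.1 * F p.2 p.1) :=
    (hθ.comp measurable_snd).mul ((CR1_iw.comp measurable_fst).mul
      (hF.comp (measurable_snd.prodMk measurable_fst)))
  have hm4 : ∀ s, Measurable fun ξ => iw ξ * F s ξ := fun s =>
    CR1_iw.mul (hF.comp (measurable_const.prodMk measurable_id))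
  have s1 : ∫⁻ t in Ioc 0 T, ∫⁻ ξ, q t ξ * dh κ F t ξ =
      ∫⁻ t in Ioc 0 T, ∫⁻ ξ, ∫⁻ s in Ioc 0 T, CR1_K κ F q t ξ s :=
    setLIntegral_congr_fun measurableSet_Ioc fun t ht' =>
      lintegral_congr fun ξ => CR1_K_one κ T F hF q t ht' ξ
  have s2 : ∫⁻ t in Ioc 0 T, ∫⁻ ξ, ∫⁻ s in Ioc 0 T, CR1_K κ F q t ξ s =
      ∫⁻ ξ, ∫⁻ t in Ioc 0 T, ∫⁻ s in Ioc 0 T, CR1_K κ F q t ξ s :=
    lintegral_lintegral_swap (f := fun t ξ => ∫⁻ s in Ioc 0 T, CR1_K κ F q t ξ s)
      hm1.aemeasurable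
  have s3 : ∫⁻ ξ, ∫⁻ t in Ioc 0 T, ∫⁻ s in Ioc 0 T, CR1_K κ F q t ξ s =
      ∫⁻ ξ, ∫⁻ s in Ioc 0 T, ∫⁻ t in Ioc 0 T, CR1_K κ F q t ξ s :=
    lintegral_congr fun ξ => lintegral_lintegral_swap (f := fun t s => CR1_K κ F q t ξ s)
      (hm2 ξ).aemeasurable
  have s4 : ∫⁻ ξ, ∫⁻ s in Ioc 0 T, ∫⁻ t in Ioc 0 T, CR1_K κ F q t ξ s ≤
      ∫⁻ ξ, ∫⁻ s in Ioc 0 T, θ s * (iw ξ * F s ξ) :=
    lintegral_mono fun ξ => setLIntegral_mono' measurableSet_Ioc fun s hs =>
      CR1_K_two κ T F θ q hq s hs ξ (hb s hs ξ)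
  have s5 : ∫⁻ ξ, ∫⁻ s in Ioc 0 T, θ s * (iw ξ * F s ξ) =
      ∫⁻ s in Ioc 0 T, ∫⁻ ξ, θ s * (iw ξ * F s ξ) :=
    lintegral_lintegral_swap (f := fun ξ s => θ s * (iw ξ * F s ξ)) hm3.aemeasurable
  have s6 : ∫⁻ s in Ioc 0 T, ∫⁻ ξ, θ s * (iw ξ * F s ξ) =
      ∫⁻ s in Ioc 0 T, θ s * ∫⁻ ξ, iw ξ * F s ξ :=
    lintegral_congr fun s => lintegral_const_mul _ (hm4 s)
  rw [s1, s2, s3]
  refine s4.trans ?_
  rw [s5, s6]

theorem t_CR1 : S_CR1 := by
  intro κ μ T H F hκ hμ hT hH hF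
  have hθ := CR1_th_meas μ H hH
  have hanti := CR1_phi_anti μ H hμ hH
  have hth_anti : ∀ s t, s ≤ t → th μ H t ≤ th μ H s := fun s t hst =>
    ENNReal.ofReal_le_ofReal (hanti hst)
  have hFs : ∀ ξ, Measurable fun s => F s ξ := fun ξ =>
    hF.comp (measurable_id.prodMk measurable_const)
  have hFξ : ∀ s, Measurable fun ξ => F s ξ := fun s =>
    hF.comp (measurable_const.prodMk measurable_id)
  refine ⟨?_, ?_, ?_⟩
  · intro t ht'
    have hm3 : Measurable (Function.uncurry fun (ξ : E3) (s : ℝ) => th μ H s * (iw ξ * F s ξ)) :=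
      (hθ.comp measurable_snd).mul ((CR1_iw.comp measurable_fst).mul
        (hF.comp (measurable_snd.prodMk measurable_fst)))
    have hpt : ∀ ξ, th μ H t * (iw ξ * dh κ F t ξ) ≤
        ∫⁻ s in Ioc 0 t, th μ H s * (iw ξ * F s ξ) := by
      intro ξ
      have hmm : Measurable fun s => ENNReal.ofReal (ht κ ξ (t - s)) * F s ξ :=
        (CR1_htr κ t ξ).mul (hFs ξ)
      unfold dh
      rw [← mul_assoc, ← lintegral_const_mul _ hmm]
      refine setLIntegral_mono' measurableSet_Ioc fun s hs => ?_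
      calc th μ H t * iw ξ * (ENNReal.ofReal (ht κ ξ (t - s)) * F s ξ)
          ≤ th μ H s * iw ξ * (1 * F s ξ) := by
            gcongr
            · exact hth_anti s t hs.2
            · exact CR1_ht_le κ hκ ξ _ (by linarith [hs.2])
        _ = th μ H s * (iw ξ * F s ξ) := by rw [one_mul, mul_assoc]
    calc th μ H t * (∫⁻ ξ, iw ξ * dh κ F t ξ)
        ≤ ∫⁻ ξ, th μ H t * (iw ξ * dh κ F t ξ) := lintegral_const_mul_le _ _
      _ ≤ ∫⁻ ξ, ∫⁻ s in Ioc 0 t, th μ H s * (iw ξ * F s ξ) := lintegral_mono hpt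
      _ = ∫⁻ s in Ioc 0 t, ∫⁻ ξ, th μ H s * (iw ξ * F s ξ) :=
          lintegral_lintegral_swap hm3.aemeasurable
      _ = ∫⁻ s in Ioc 0 t, th μ H s * ∫⁻ ξ, iw ξ * F s ξ :=
          lintegral_congr fun s => lintegral_const_mul _ (CR1_iw.mul (hFξ s))
      _ ≤ ∫⁻ s in Ioc 0 T, th μ H s * ∫⁻ ξ, iw ξ * F s ξ :=
          lintegral_mono_set (Ioc_subset_Ioc_right ht'.2)
  · have hq : Measurable (Function.uncurry fun (t : ℝ) (ξ : E3) =>
        ENNReal.ofReal κ * (th μ H t * nw ξ)) :=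
      measurable_const.mul ((hθ.comp measurable_fst).mul (CR1_nw.comp measurable_snd))
    have hb : ∀ s ∈ Ioc 0 T, ∀ ξ, ∫⁻ t in Icc s T,
        (ENNReal.ofReal κ * (th μ H t * nw ξ)) * ENNReal.ofReal (ht κ ξ (t - s)) ≤
          th μ H s * iw ξ := by
      intro s hs ξ
      by_cases hξ : ξ = 0
      · subst hξ
        simp [nw]
      have hξ' : 0 < ‖ξ‖ := norm_pos_iff.2 hξ
      have hk : ENNReal.ofReal κ * nw ξ = iw ξ * ENNReal.ofReal (κ * ‖ξ‖ ^ 2) := by
        unfold nw iw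
        rw [← ENNReal.ofReal_mul hκ.le, ← ENNReal.ofReal_mul (by positivity)]
        congr 1
        field_simp
      have hm : Measurable fun t => ENNReal.ofReal (κ * ‖ξ‖ ^ 2 * ht κ ξ (t - s)) := by
        refine Measurable.ennreal_ofReal ?_
        unfold ht
        exact Continuous.measurable (by fun_prop)
      calc ∫⁻ t in Icc s T,
            (ENNReal.ofReal κ * (th μ H t * nw ξ)) * ENNReal.ofReal (ht κ ξ (t - s))
          ≤ ∫⁻ t in Icc s T,
            (th μ H s * iw ξ) * ENNReal.ofReal (κ * ‖ξ‖ ^ 2 * ht κ ξ (t - s)) := by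
            refine setLIntegral_mono' measurableSet_Icc fun t ht' => ?_
            rw [ENNReal.ofReal_mul (by positivity : 0 ≤ κ * ‖ξ‖ ^ 2)]
            calc (ENNReal.ofReal κ * (th μ H t * nw ξ)) * ENNReal.ofReal (ht κ ξ (t - s))
                = th μ H t * (ENNReal.ofReal κ * nw ξ) * ENNReal.ofReal (ht κ ξ (t - s)) := by
                  ring
              _ ≤ th μ H s * (ENNReal.ofReal κ * nw ξ) * ENNReal.ofReal (ht κ ξ (t - s)) := by
                  gcongr
                  exact hth_anti s t ht'.1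
              _ = (th μ H s * iw ξ) *
                  (ENNReal.ofReal (κ * ‖ξ‖ ^ 2) * ENNReal.ofReal (ht κ ξ (t - s))) := by
                  rw [hk]; ring
        _ = (th μ H s * iw ξ) *
            ∫⁻ t in Icc s T, ENNReal.ofReal (κ * ‖ξ‖ ^ 2 * ht κ ξ (t - s)) :=
            lintegral_const_mul _ hm
        _ ≤ (th μ H s * iw ξ) * 1 := by
            gcongr
            have hftc := CR1_ftc (fun t => ht κ ξ (t - s))
              (fun t => -(κ * ‖ξ‖ ^ 2 * ht κ ξ (t - s))) s T hs.2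
              (fun t => by
                have h1 : HasDerivAt (fun t : ℝ => -(κ * ‖ξ‖ ^ 2 * (t - s)))
                    (-(κ * ‖ξ‖ ^ 2 * 1)) t :=
                  (((hasDerivAt_id t).sub_const s).const_mul (κ * ‖ξ‖ ^ 2)).fun_neg
                have h2 := h1.exp
                have e : -(κ * ‖ξ‖ ^ 2 * ht κ ξ (t - s)) =
                    Real.exp (-(κ * ‖ξ‖ ^ 2 * (t - s))) * -(κ * ‖ξ‖ ^ 2 * 1) := by
                  unfold ht
                  ring
                rw [e]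
                exact h2)
              (by unfold ht; fun_prop)
              (fun t => by
                have : 0 < ht κ ξ (t - s) := Real.exp_pos _
                have : 0 ≤ κ * ‖ξ‖ ^ 2 * ht κ ξ (t - s) := by positivity
                linarith)
              (Real.exp_pos _).le
            simp only [neg_neg, sub_self] at hftc
            refine hftc.trans ?_
            simp [ht]
        _ = th μ H s * iw ξ := mul_one _
    have main := CR1_gen κ T F hF (th μ H) hθ _ hq hb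
    refine le_trans (le_of_eq ?_) main
    have hdm : Measurable (Function.uncurry (dh κ F)) := by
      have hKm : Measurable fun p : (ℝ × E3) × ℝ =>
          (Ioc 0 p.1.1).indicator (fun s => ENNReal.ofReal (ht κ p.1.2 (p.1.1 - s)) * F s p.1.2)
            p.2 := by
        have : (fun p : (ℝ × E3) × ℝ =>
          (Ioc 0 p.1.1).indicator (fun s => ENNReal.ofReal (ht κ p.1.2 (p.1.1 - s)) * F s p.1.2)
            p.2) = {p : (ℝ × E3) × ℝ | 0 < p.2 ∧ p.2 ≤ p.1.1}.indicator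
            (fun p => ENNReal.ofReal (ht κ p.1.2 (p.1.1 - p.2)) * F p.2 p.1.2) := by
          funext p
          by_cases h : 0 < p.2 ∧ p.2 ≤ p.1.1
          · rw [indicator_of_mem (show p.2 ∈ Ioc 0 p.1.1 from h), indicator_of_mem (by exact h)]
          · rw [indicator_of_notMem (show p.2 ∉ Ioc 0 p.1.1 from h),
              indicator_of_notMem (by exact h)]
        rw [this]
        refine Measurable.indicator ?_ ?_
        · exact (CR1_ht3 κ).mul (hF.comp (measurable_snd.prodMk measurable_fst.snd))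
        · exact (measurableSet_lt measurable_const measurable_snd).inter
            (measurableSet_le measurable_snd measurable_fst.fst)
      have h2 : Measurable fun x : ℝ × E3 => ∫⁻ y : ℝ,
          (Ioc 0 x.1).indicator (fun s => ENNReal.ofReal (ht κ x.2 (x.1 - s)) * F s x.2) y :=
        hKm.lintegral_prod_right'
      have e : Function.uncurry (dh κ F) = fun p : ℝ × E3 => ∫⁻ s, (Ioc 0 p.1).indicator
          (fun s => ENNReal.ofReal (ht κ p.2 (p.1 - s)) * F s p.2) s := by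
        funext p
        rw [lintegral_indicator measurableSet_Ioc]
        rfl
      rw [e]
      exact h2
    have hdmt : ∀ t, Measurable (dh κ F t) := fun t =>
      hdm.comp (measurable_const.prodMk measurable_id)
    have hmC : Measurable fun p : ℝ × E3 => nw p.2 * dh κ F p.1 p.2 :=
      (CR1_nw.comp measurable_snd).mul hdm
    have hmD : Measurable fun t => ∫⁻ ξ, nw ξ * dh κ F t ξ := hmC.lintegral_prod_right'
    have hmA : Measurable fun t => th μ H t * ∫⁻ ξ, nw ξ * dh κ F t ξ := hθ.mul hmD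
    rw [← lintegral_const_mul _ hmA]
    refine lintegral_congr fun t => ?_
    have hmB : Measurable fun ξ => nw ξ * dh κ F t ξ := CR1_nw.mul (hdmt t)
    rw [← mul_assoc, ← lintegral_const_mul _ hmB]
    refine lintegral_congr fun ξ => ?_
    ring
  · have hq : Measurable (Function.uncurry fun (t : ℝ) (ξ : E3) =>
        ENNReal.ofReal (μ * H t ^ 2) * (th μ H t * iw ξ)) := by
      refine Measurable.mul ?_ ((hθ.comp measurable_fst).mul (CR1_iw.comp measurable_snd))
      exact ((hH.measurable.comp measurable_fst).pow_const 2 |>.const_mul μ).ennreal_ofReal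
    have hb : ∀ s ∈ Ioc 0 T, ∀ ξ, ∫⁻ t in Icc s T,
        (ENNReal.ofReal (μ * H t ^ 2) * (th μ H t * iw ξ)) * ENNReal.ofReal (ht κ ξ (t - s)) ≤
          th μ H s * iw ξ := by
      intro s hs ξ
      have hm : Measurable fun t => ENNReal.ofReal (μ * H t ^ 2 * CR1_phi μ H t) :=
        (((hH.measurable.pow_const 2).const_mul μ).mul
          (CR1_phi_cont μ H hH).measurable).ennreal_ofReal
      calc ∫⁻ t in Icc s T,
            (ENNReal.ofReal (μ * H t ^ 2) * (th μ H t * iw ξ)) * ENNReal.ofReal (ht κ ξ (t - s))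
          ≤ ∫⁻ t in Icc s T, iw ξ * ENNReal.ofReal (μ * H t ^ 2 * CR1_phi μ H t) := by
            refine setLIntegral_mono' measurableSet_Icc fun t ht' => ?_
            rw [ENNReal.ofReal_mul (by positivity : 0 ≤ μ * H t ^ 2), CR1_th]
            calc (ENNReal.ofReal (μ * H t ^ 2) * (ENNReal.ofReal (CR1_phi μ H t) * iw ξ)) *
                  ENNReal.ofReal (ht κ ξ (t - s))
                ≤ (ENNReal.ofReal (μ * H t ^ 2) * (ENNReal.ofReal (CR1_phi μ H t) * iw ξ)) *
                  1 := by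
                  gcongr
                  exact CR1_ht_le κ hκ ξ _ (by linarith [ht'.1])
              _ = iw ξ * (ENNReal.ofReal (μ * H t ^ 2) * ENNReal.ofReal (CR1_phi μ H t)) := by
                  ring
        _ = iw ξ * ∫⁻ t in Icc s T, ENNReal.ofReal (μ * H t ^ 2 * CR1_phi μ H t) :=
            lintegral_const_mul _ hm
        _ ≤ iw ξ * th μ H s := by
            gcongr
            have hftc := CR1_ftc (CR1_phi μ H)
              (fun t => -(μ * H t ^ 2 * CR1_phi μ H t)) s T hs.2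
              (fun t => CR1_phi_deriv μ H hH t)
              (by
                have := CR1_phi_cont μ H hH
                fun_prop)
              (fun t => by
                have := CR1_phi_pos μ H t
                have : 0 ≤ μ * H t ^ 2 * CR1_phi μ H t := by positivity
                linarith)
              (CR1_phi_pos μ H T).le
            simp only [neg_neg] at hftc
            exact hftc
        _ = th μ H s * iw ξ := mul_comm _ _
    have main := CR1_gen κ T F hF (th μ H) hθ _ hq hb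
    refine le_trans (lintegral_mono fun t => ?_) main
    have h1 : ENNReal.ofReal (μ * H t ^ 2) * (th μ H t * ∫⁻ ξ, iw ξ * dh κ F t ξ) =
        (ENNReal.ofReal (μ * H t ^ 2) * th μ H t) * ∫⁻ ξ, iw ξ * dh κ F t ξ := by ring
    refine (le_of_eq h1).trans ((lintegral_const_mul_le _ _).trans ?_)
    refine lintegral_mono fun ξ => le_of_eq ?_
    ring

end Pool.Agent.Run7.h148.AX
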