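import Pool.Agent.Run7.h148.AX.Stm1

/-! Project AX (helper148), piece NLL: additivity of `nl`. -/

set_option autoImplicit false

open MeasureTheory Set Filter Topology
open scoped ENNReal ContDiff FourierTransform

namespace Pool.Agent.Run7.h148.AX

theorem NLL_dt_add (ξ : E3) (v w : C3) : dt ξ (v + w) = dt ξ v + dt ξ w := by
  simp only [dt, Pi.add_apply, mul_add, Finset.sum_add_distrib]

theorem NLL_dt_sub (ξ : E3) (v w : C3) : dt ξ (v - w) = dt ξ v - dt ξ w := by
  simp only [dt, Pi.sub_apply, mul_sub, Finset.sum_sub_distrib]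

theorem NLL_lp_add (ξ : E3) (v w : C3) : lp ξ (v + w) = lp ξ v + lp ξ w := by
  funext k
  simp only [lp, NLL_dt_add, Pi.add_apply]
  ring

theorem NLL_lp_sub (ξ : E3) (v w : C3) : lp ξ (v - w) = lp ξ v - lp ξ w := by
  funext k
  simp only [lp, NLL_dt_sub, Pi.sub_apply]
  ring

theorem NLL_dt_norm (ξ : E3) (v : C3) : ‖dt ξ v‖ₑ ≤ (∑ j, ‖(ξ j : ℂ)‖ₑ) * ‖v‖ₑ := by
  unfold dt
  refine (enorm_sum_le _ _).trans ?_
  rw [Finset.sum_mul]
  refine Finset.sum_le_sum fun j _ => ?_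
  rw [enorm_mul]
  gcongr
  exact enorm_le_iff_norm_le.2 (norm_le_pi_norm v j)

theorem NLL_int (a b : E3 → C3) (ha : Measurable a) (hb : Measurable b) (ξ : E3)
    (h : cv (fun η => ‖a η‖ₑ) (fun η => ‖b η‖ₑ) ξ < ⊤) :
    Integrable (fun η => dt ξ (a (ξ - η)) • b η) := by
  have h1 : Measurable fun η => dt ξ (a (ξ - η)) := by
    unfold dt
    exact Finset.measurable_fun_sum _ fun j _ =>
      ((measurable_pi_apply j).comp (ha.comp (measurable_const.sub measurable_id))).const_mul _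
  refine ⟨(h1.smul hb).aestronglyMeasurable, ?_⟩
  rw [hasFiniteIntegral_iff_enorm]
  have h2 : ∀ η, ‖dt ξ (a (ξ - η)) • b η‖ₑ ≤
      (∑ j, ‖(ξ j : ℂ)‖ₑ) * (‖a (ξ - η)‖ₑ * ‖b η‖ₑ) := by
    intro η
    rw [enorm_smul, ← mul_assoc]
    gcongr
    exact NLL_dt_norm ξ _
  refine (lintegral_mono h2).trans_lt ?_
  have h3 : Measurable fun η => ‖a (ξ - η)‖ₑ * ‖b η‖ₑ :=
    ((ha.comp (measurable_const.sub measurable_id)).enorm).mul hb.enorm
  rw [lintegral_const_mul _ h3]
  refine ENNReal.mul_lt_top ?_ h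
  exact ENNReal.sum_lt_top.2 fun j _ => enorm_lt_top

theorem t_NLL : S_NLL := by
  intro a a' b b' ha ha' hb hb' ξ h1 h2 h3
  have i1 := NLL_int a b ha hb ξ h1
  have i2 := NLL_int a' b ha' hb ξ h2
  have i3 := NLL_int a b' ha hb' ξ h3
  refine ⟨?_, ?_, ?_, ?_⟩
  · unfold nl
    rw [← smul_add, ← NLL_lp_add, ← integral_add i1 i2]
    congr 2
    refine integral_congr_ae (Eventually.of_forall fun η => ?_)
    show dt ξ (a (ξ - η) + a' (ξ - η)) • b η = _
    rw [NLL_dt_add, add_smul]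
  · unfold nl
    rw [← smul_sub, ← NLL_lp_sub, ← integral_sub i1 i2]
    congr 2
    refine integral_congr_ae (Eventually.of_forall fun η => ?_)
    show dt ξ (a (ξ - η) - a' (ξ - η)) • b η = _
    rw [NLL_dt_sub, sub_smul]
  · unfold nl
    rw [← smul_add, ← NLL_lp_add, ← integral_add i1 i3]
    congr 2
    refine integral_congr_ae (Eventually.of_forall fun η => ?_)
    show dt ξ (a (ξ - η)) • (b η + b' η) = _
    rw [smul_add]
  · unfold nl
    rw [← smul_sub, ← NLL_lp_sub, ← integral_sub i1 i3]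
    congr 2
    refine integral_congr_ae (Eventually.of_forall fun η => ?_)
    show dt ξ (a (ξ - η)) • (b η - b' η) = _
    rw [smul_sub]

end Pool.Agent.Run7.h148.AX
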