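import Pool.Agent.Run7.h155.AX.Base

/-! Project AX (helper148), piece VC1: differences of the Picard iterates. -/

set_option autoImplicit false

open MeasureTheory Set Filter Topology
open scoped ENNReal ContDiff FourierTransform

namespace Pool.Agent.Run7.h531.AX

open Pool.Agent.Run7.h148.AX Pool.Agent.Run7.h155.AX

/-- the integrand of the Picard step -/
noncomputable def VX (F g v : ℝ → E3 → C3) (s : ℝ) (ξ : E3) : C3 :=
  F s ξ + nl (g s) (v s) ξ + nl (v s) (g s) ξ + nl (v s) (v s) ξ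

theorem VX_meas (hNLM : S_NLM) {F g v : ℝ → E3 → C3} (hF : Measurable (Function.uncurry F))
    (hg : Measurable (Function.uncurry g)) (hv : Measurable (Function.uncurry v)) :
    Measurable (Function.uncurry (VX F g v)) :=
  ((hF.add (hNLM g v hg hv)).add (hNLM v g hv hg)).add (hNLM v v hv hv)

theorem secV {w : ℝ → E3 → C3} (hw : Measurable (Function.uncurry w)) (s : ℝ) :
    Measurable (w s) := hw.comp measurable_prodMk_left

theorem secE {w : ℝ → E3 → ℝ≥0∞} (hw : Measurable (Function.uncurry w)) (s : ℝ) :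
    Measurable (w s) := hw.comp measurable_prodMk_left

theorem secV' {w : ℝ → E3 → C3} (hw : Measurable (Function.uncurry w)) (ξ : E3) :
    Measurable fun s => w s ξ := hw.comp measurable_prodMk_right

theorem stp_meas (κ : ℝ) {F g v : ℝ → E3 → C3} (hX : Measurable (Function.uncurry (VX F g v))) :
    Measurable (Function.uncurry (stp κ F g v)) := by
  have m2 : Measurable fun p : (ℝ × E3) × ℝ => ht κ p.1.2 (p.1.1 - p.2) := by
    unfold ht
    exact Continuous.measurable (by fun_prop)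
  have m3 : Measurable fun p : (ℝ × E3) × ℝ => VX F g v p.2 p.1.2 :=
    hX.comp (measurable_snd.prodMk measurable_fst.snd)
  have hS : MeasurableSet {p : (ℝ × E3) × ℝ | 0 < p.2 ∧ p.2 ≤ p.1.1} :=
    (measurableSet_lt measurable_const measurable_snd).inter
      (measurableSet_le measurable_snd measurable_fst.fst)
  have hΦ : Measurable ({p : (ℝ × E3) × ℝ | 0 < p.2 ∧ p.2 ≤ p.1.1}.indicator
      (fun p => ht κ p.1.2 (p.1.1 - p.2) • VX F g v p.2 p.1.2)) := (m2.smul m3).indicator hS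
  have h2 : StronglyMeasurable fun x : ℝ × E3 => ∫ y : ℝ,
      ({p : (ℝ × E3) × ℝ | 0 < p.2 ∧ p.2 ≤ p.1.1}.indicator
      (fun p => ht κ p.1.2 (p.1.1 - p.2) • VX F g v p.2 p.1.2)) (x, y) :=
    hΦ.stronglyMeasurable.integral_prod_right'
  have e : Function.uncurry (stp κ F g v) = fun x : ℝ × E3 => ∫ y : ℝ,
      ({p : (ℝ × E3) × ℝ | 0 < p.2 ∧ p.2 ≤ p.1.1}.indicator
      (fun p => ht κ p.1.2 (p.1.1 - p.2) • VX F g v p.2 p.1.2)) (x, y) := by
    funext x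
    have e' : (fun y : ℝ => ({p : (ℝ × E3) × ℝ | 0 < p.2 ∧ p.2 ≤ p.1.1}.indicator
        (fun p => ht κ p.1.2 (p.1.1 - p.2) • VX F g v p.2 p.1.2)) (x, y)) =
        (Ioc 0 x.1).indicator (fun s => ht κ x.2 (x.1 - s) • VX F g v s x.2) := by
      funext y
      by_cases h : 0 < y ∧ y ≤ x.1
      · rw [indicator_of_mem (show y ∈ Ioc 0 x.1 from h), indicator_of_mem (by exact h)]
      · rw [indicator_of_notMem (show y ∉ Ioc 0 x.1 from h), indicator_of_notMem (by exact h)]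
    rw [e', integral_indicator measurableSet_Ioc]
    rfl
  rw [e]
  exact h2.measurable

theorem VX_norm (hNLB : S_NLB) (F g v : ℝ → E3 → C3) (s : ℝ) (ξ : E3) :
    ‖VX F g v s ξ‖ₑ ≤ src (nm F) (nm g) (nm v) s ξ := by
  unfold VX src
  refine (enorm_add_le _ _).trans ?_
  refine (add_le_add ((enorm_add_le _ _).trans (add_le_add ((enorm_add_le _ _).trans
    (add_le_add le_rfl (hNLB (g s) (v s) ξ))) (hNLB (v s) (g s) ξ))) (hNLB (v s) (v s) ξ)).trans ?_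
  rw [mul_add, mul_add, ← add_assoc, ← add_assoc]
  exact le_rfl

theorem cv_mono {a a' b b' : E3 → ℝ≥0∞} (ha : ∀ η, a η ≤ a' η) (hb : ∀ η, b η ≤ b' η) (ξ : E3) :
    cv a b ξ ≤ cv a' b' ξ := lintegral_mono fun η => mul_le_mul' (ha _) (hb _)

theorem src_mono {f h m m' : ℝ → E3 → ℝ≥0∞} {s : ℝ} (hm : ∀ η, m s η ≤ m' s η) (ξ : E3) :
    src f h m s ξ ≤ src f h m' s ξ := by
  unfold src
  refine add_le_add le_rfl (mul_le_mul' le_rfl ?_)
  exact add_le_add (add_le_add (cv_mono (fun _ => le_rfl) hm ξ) (cv_mono hm (fun _ => le_rfl) ξ))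
    (cv_mono hm hm ξ)

theorem sub_meas (ξ : E3) : Measurable fun η : E3 => ξ - η := by fun_prop

theorem cvR {a b c e : E3 → ℝ≥0∞} (ha : Measurable a) (hb : Measurable b)
    (h : ∀ η, b η + c η ≤ e η) (ξ : E3) : cv a b ξ + cv a c ξ ≤ cv a e ξ := by
  unfold cv
  have m : Measurable fun η => a (ξ - η) * b η := (ha.comp (sub_meas ξ)).mul hb
  rw [← lintegral_add_left m]
  refine lintegral_mono fun η => ?_
  show a (ξ - η) * b η + a (ξ - η) * c η ≤ a (ξ - η) * e η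
  rw [← mul_add]
  exact mul_le_mul' le_rfl (h η)

theorem cvL {a b c e : E3 → ℝ≥0∞} (ha : Measurable a) (hb : Measurable b)
    (h : ∀ η, b η + c η ≤ e η) (ξ : E3) : cv b a ξ + cv c a ξ ≤ cv e a ξ := by
  unfold cv
  have m : Measurable fun η => b (ξ - η) * a η := (hb.comp (sub_meas ξ)).mul ha
  rw [← lintegral_add_left m]
  refine lintegral_mono fun η => ?_
  show b (ξ - η) * a η + c (ξ - η) * a η ≤ e (ξ - η) * a η
  rw [← add_mul]
  exact mul_le_mul' (h (ξ - η)) le_rfl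

theorem enorm_ht (κ : ℝ) (ξ : E3) (r : ℝ) (x : C3) :
    ‖ht κ ξ r • x‖ₑ = ENNReal.ofReal (ht κ ξ r) * ‖x‖ₑ := by
  rw [enorm_smul, Real.enorm_of_nonneg (ht_nonneg _ _ _)]

theorem stp_norm (hNLB : S_NLB) (κ : ℝ) (F g v : ℝ → E3 → C3) (t : ℝ) (ξ : E3) :
    ‖stp κ F g v t ξ‖ₑ ≤ dh κ (src (nm F) (nm g) (nm v)) t ξ := by
  have e : stp κ F g v t ξ = ∫ s in Ioc 0 t, ht κ ξ (t - s) • VX F g v s ξ := rfl
  rw [e]
  refine (enorm_integral_le_lintegral_enorm _).trans ?_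
  unfold dh
  refine lintegral_mono fun s => ?_
  rw [enorm_ht]
  exact mul_le_mul' le_rfl (VX_norm hNLB F g v s ξ)

theorem VC1_pt (hNLB : S_NLB) (hNLL : S_NLL) {F g v v' : ℝ → E3 → C3} {m m' : ℝ → E3 → ℝ≥0∞}
    (hg : Measurable (Function.uncurry g)) (hv : Measurable (Function.uncurry v))
    (hv' : Measurable (Function.uncurry v')) (hm : Measurable (Function.uncurry m))
    (hm' : Measurable (Function.uncurry m')) {t : ℝ} {M : NNReal} (hgB : Bd g t M)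
    (hvB : Bd v t M) (hvB' : Bd v' t M) {s : ℝ} (hs : s ∈ Icc 0 t)
    (h1 : ∀ ξ, ‖v s ξ‖ₑ ≤ m s ξ) (h1' : ∀ ξ, ‖v' s ξ‖ₑ ≤ m' s ξ)
    (h2 : ∀ ξ, ‖v' s ξ - v s ξ‖ₑ + m s ξ ≤ m' s ξ) (ξ : E3) :
    ‖VX F g v' s ξ - VX F g v s ξ‖ₑ + src (nm F) (nm g) m s ξ ≤ src (nm F) (nm g) m' s ξ := by
  have fin : ∀ {a b : E3 → C3}, (∀ ξ, ‖a ξ‖ₑ ≤ M) → (∫⁻ ξ, ‖b ξ‖ₑ) ≤ M →
      cv (fun η => ‖a η‖ₑ) (fun η => ‖b η‖ₑ) ξ < ⊤ := fun ha hb =>
    (cv_le ha hb ξ).trans_lt (ENNReal.mul_lt_top ENNReal.coe_lt_top ENNReal.coe_lt_top)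
  have mg := secV hg s
  have mv := secV hv s
  have mv' := secV hv' s
  obtain ⟨gi, gs⟩ := hgB s hs
  obtain ⟨vi, vs⟩ := hvB s hs
  obtain ⟨vi', vs'⟩ := hvB' s hs
  have A := (hNLL (g s) (g s) (v' s) (v s) mg mg mv' mv ξ (fin gs vi') (fin gs vi')
    (fin gs vi)).2.2.2
  have B := (hNLL (v' s) (v s) (g s) (g s) mv' mv mg mg ξ (fin vs' gi) (fin vs gi)
    (fin vs' gi)).2.1
  have C := (hNLL (v' s) (v s) (v' s) (v' s) mv' mv mv' mv' ξ (fin vs' vi') (fin vs vi')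
    (fin vs' vi')).2.1
  have D := (hNLL (v s) (v s) (v' s) (v s) mv mv mv' mv ξ (fin vs vi') (fin vs vi')
    (fin vs vi)).2.2.2
  set d : E3 → ℝ≥0∞ := fun η => ‖v' s η - v s η‖ₑ with hd
  have hdm : Measurable d := (mv'.sub mv).enorm
  have hdiff : VX F g v' s ξ - VX F g v s ξ =
      nl (g s) (fun η => v' s η - v s η) ξ + nl (fun η => v' s η - v s η) (g s) ξ +
      nl (fun η => v' s η - v s η) (v' s) ξ + nl (v s) (fun η => v' s η - v s η) ξ := by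
    rw [A, B, C, D]
    unfold VX
    abel
  have hn : ‖VX F g v' s ξ - VX F g v s ξ‖ₑ ≤
      40 * nw ξ * (cv (nm g s) d ξ + cv d (nm g s) ξ + cv d (m' s) ξ + cv (m s) d ξ) := by
    rw [hdiff, mul_add, mul_add, mul_add]
    refine (enorm_add_le _ _).trans (add_le_add ((enorm_add_le _ _).trans (add_le_add
      ((enorm_add_le _ _).trans (add_le_add (hNLB _ _ ξ) (hNLB _ _ ξ))) ?_)) ?_)
    · exact (hNLB _ _ ξ).trans (mul_le_mul' le_rfl (cv_mono (fun _ => le_rfl) h1' ξ))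
    · exact (hNLB _ _ ξ).trans (mul_le_mul' le_rfl (cv_mono h1 (fun _ => le_rfl) ξ))
  have mG : Measurable (nm g s) := mg.enorm
  have mm := secE hm s
  have mm' := secE hm' s
  have k1 : cv (nm g s) d ξ + cv (nm g s) (m s) ξ ≤ cv (nm g s) (m' s) ξ := cvR mG hdm h2 ξ
  have k2 : cv d (nm g s) ξ + cv (m s) (nm g s) ξ ≤ cv (m' s) (nm g s) ξ := cvL mG hdm h2 ξ
  have k3 : cv (m s) d ξ + cv (m s) (m s) ξ ≤ cv (m s) (m' s) ξ := cvR mm hdm h2 ξ
  have k4 : cv d (m' s) ξ + cv (m s) (m' s) ξ ≤ cv (m' s) (m' s) ξ := cvL mm' hdm h2 ξ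
  have k5 : cv d (m' s) ξ + (cv (m s) d ξ + cv (m s) (m s) ξ) ≤ cv (m' s) (m' s) ξ :=
    (add_le_add le_rfl k3).trans k4
  refine (add_le_add hn le_rfl).trans ?_
  unfold src
  calc 40 * nw ξ * (cv (nm g s) d ξ + cv d (nm g s) ξ + cv d (m' s) ξ + cv (m s) d ξ) +
        (nm F s ξ + 40 * nw ξ * (cv (nm g s) (m s) ξ + cv (m s) (nm g s) ξ + cv (m s) (m s) ξ))
      = nm F s ξ + 40 * nw ξ * ((cv (nm g s) d ξ + cv (nm g s) (m s) ξ) +
          (cv d (nm g s) ξ + cv (m s) (nm g s) ξ) +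
          (cv d (m' s) ξ + (cv (m s) d ξ + cv (m s) (m s) ξ))) := by ring
    _ ≤ nm F s ξ + 40 * nw ξ *
        (cv (nm g s) (m' s) ξ + cv (m' s) (nm g s) ξ + cv (m' s) (m' s) ξ) :=
        add_le_add le_rfl (mul_le_mul' le_rfl (add_le_add (add_le_add k1 k2) k5))

theorem VC1_int (hNLB : S_NLB) (hNLM : S_NLM) {κ : ℝ} (hκ : 0 < κ) {F g v : ℝ → E3 → C3}
    (hF : Measurable (Function.uncurry F)) (hg : Measurable (Function.uncurry g))
    (hv : Measurable (Function.uncurry v)) {t : ℝ} {M : NNReal}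
    (hFM : ∀ s ∈ Icc 0 t, ∀ ξ, ‖F s ξ‖ₑ ≤ M) (hgB : Bd g t M) (hvB : Bd v t M) (ξ : E3) :
    IntegrableOn (fun s => ht κ ξ (t - s) • VX F g v s ξ) (Ioc 0 t) := by
  obtain ⟨C1, h1⟩ := nl_bd hNLB hgB hvB ξ
  obtain ⟨C2, h2⟩ := nl_bd hNLB hvB hgB ξ
  obtain ⟨C3, h3⟩ := nl_bd hNLB hvB hvB ξ
  refine int_time hκ.le ξ t (secV' (VX_meas hNLM hF hg hv) ξ) (M := M + C1 + C2 + C3) ?_
  intro s hs
  unfold VX
  push_cast
  exact (enorm_add_le _ _).trans (add_le_add ((enorm_add_le _ _).trans (add_le_add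
    ((enorm_add_le _ _).trans (add_le_add (hFM s (Ioc_subset_Icc_self hs) ξ) (h1 s hs)))
    (h2 s hs))) (h3 s hs))

theorem VC1_step (hNLB : S_NLB) (hNLM : S_NLM) (hNLL : S_NLL) {κ : ℝ} (hκ : 0 < κ)
    {F g v v' : ℝ → E3 → C3} {m m' : ℝ → E3 → ℝ≥0∞}
    (hF : Measurable (Function.uncurry F))
    (hg : Measurable (Function.uncurry g)) (hv : Measurable (Function.uncurry v))
    (hv' : Measurable (Function.uncurry v')) (hm : Measurable (Function.uncurry m))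
    (hm' : Measurable (Function.uncurry m')) {t : ℝ} {M : NNReal}
    (hFM : ∀ s ∈ Icc 0 t, ∀ ξ, ‖F s ξ‖ₑ ≤ M) (hgB : Bd g t M)
    (hvB : Bd v t M) (hvB' : Bd v' t M)
    (h1 : ∀ s ∈ Icc 0 t, ∀ ξ, ‖v s ξ‖ₑ ≤ m s ξ) (h1' : ∀ s ∈ Icc 0 t, ∀ ξ, ‖v' s ξ‖ₑ ≤ m' s ξ)
    (h2 : ∀ s ∈ Icc 0 t, ∀ ξ, ‖v' s ξ - v s ξ‖ₑ + m s ξ ≤ m' s ξ) (ξ : E3) :
    ‖stp κ F g v' t ξ - stp κ F g v t ξ‖ₑ + dh κ (src (nm F) (nm g) m) t ξ ≤
      dh κ (src (nm F) (nm g) m') t ξ := by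
  have i1 := VC1_int hNLB hNLM hκ hF hg hv hFM hgB hvB ξ
  have i2 := VC1_int hNLB hNLM hκ hF hg hv' hFM hgB hvB' ξ
  have e : stp κ F g v' t ξ - stp κ F g v t ξ =
      ∫ s in Ioc 0 t, ht κ ξ (t - s) • (VX F g v' s ξ - VX F g v s ξ) := by
    have e1 : stp κ F g v' t ξ = ∫ s in Ioc 0 t, ht κ ξ (t - s) • VX F g v' s ξ := rfl
    have e2 : stp κ F g v t ξ = ∫ s in Ioc 0 t, ht κ ξ (t - s) • VX F g v s ξ := rfl
    rw [e1, e2, ← integral_sub i2 i1]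
    refine integral_congr_ae (Eventually.of_forall fun s => ?_)
    show _ = ht κ ξ (t - s) • (VX F g v' s ξ - VX F g v s ξ)
    rw [smul_sub]
  have hX : Measurable fun s => VX F g v s ξ := secV' (VX_meas hNLM hF hg hv) ξ
  have hX' : Measurable fun s => VX F g v' s ξ := secV' (VX_meas hNLM hF hg hv') ξ
  have hD : Measurable fun s =>
      ENNReal.ofReal (ht κ ξ (t - s)) * ‖VX F g v' s ξ - VX F g v s ξ‖ₑ :=
    (ht_meas κ ξ t).ennreal_ofReal.mul (hX'.sub hX).enorm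
  have hle : ‖stp κ F g v' t ξ - stp κ F g v t ξ‖ₑ ≤
      ∫⁻ s in Ioc 0 t, ENNReal.ofReal (ht κ ξ (t - s)) * ‖VX F g v' s ξ - VX F g v s ξ‖ₑ := by
    rw [e]
    refine (enorm_integral_le_lintegral_enorm _).trans (le_of_eq ?_)
    refine lintegral_congr fun s => ?_
    rw [enorm_ht]
  refine (add_le_add hle le_rfl).trans ?_
  unfold dh
  rw [← lintegral_add_left hD]
  refine setLIntegral_mono' measurableSet_Ioc fun s hs => ?_
  have hs' : s ∈ Icc 0 t := Ioc_subset_Icc_self hs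
  rw [← mul_add]
  exact mul_le_mul' le_rfl (VC1_pt hNLB hNLL hg hv hv' hm hm' hgB hvB hvB' hs' (h1 s hs')
    (h1' s hs') (h2 s hs') ξ)

theorem t_VC1 : S_CVM → S_ITM → S_NLB → S_NLM → S_NLL → S_VC1 := by
  intro _ hITM hNLB hNLM hNLL κ F g hκ hF hg hU
  have hFm : Measurable (Function.uncurry (nm F)) := hF.enorm
  have hgm : Measurable (Function.uncurry (nm g)) := hg.enorm
  have hitm := hITM.2 κ (nm F) (nm g) hFm hgm
  have hmeas : ∀ n, Measurable (Function.uncurry (itv κ F g n)) := by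
    intro n
    induction n with
    | zero => exact measurable_const
    | succ n ih => exact stp_meas κ (VX_meas hNLM hF hg ih)
  have main : ∀ n, ∀ t, 0 ≤ t → ∀ ξ,
      ‖itv κ F g n t ξ‖ₑ ≤ itm κ (nm F) (nm g) n t ξ ∧
      ‖itv κ F g (n + 1) t ξ - itv κ F g n t ξ‖ₑ + itm κ (nm F) (nm g) n t ξ
        ≤ itm κ (nm F) (nm g) (n + 1) t ξ := by
    intro n
    induction n with
    | zero =>
      intro t h0 ξ
      refine ⟨?_, ?_⟩
      · show ‖(0 : C3)‖ₑ ≤ 0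
        rw [enorm_zero]
      · show ‖stp κ F g (fun _ _ => 0) t ξ - 0‖ₑ + 0 ≤ dh κ (src (nm F) (nm g) fun _ _ => 0) t ξ
        rw [sub_zero, add_zero]
        refine (stp_norm hNLB κ F g _ t ξ).trans ?_
        unfold dh
        refine lintegral_mono fun s => mul_le_mul' le_rfl ?_
        refine src_mono (fun η => ?_) ξ
        show ‖(0 : C3)‖ₑ ≤ 0
        rw [enorm_zero]
    | succ n ih =>
      have b1 : ∀ t, 0 ≤ t → ∀ ξ, ‖itv κ F g (n + 1) t ξ‖ₑ ≤ itm κ (nm F) (nm g) (n + 1) t ξ := by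
        intro t h0 ξ
        obtain ⟨p1, p2⟩ := ih t h0 ξ
        have : itv κ F g (n + 1) t ξ =
            (itv κ F g (n + 1) t ξ - itv κ F g n t ξ) + itv κ F g n t ξ := by abel
        rw [this]
        exact (enorm_add_le _ _).trans ((add_le_add le_rfl p1).trans p2)
      intro t h0 ξ
      refine ⟨b1 t h0 ξ, ?_⟩
      obtain ⟨M, hM⟩ := hU t
      have hgB : Bd g t M := fun s hs => ⟨(hM s hs).2.2.1, (hM s hs).2.2.2.1⟩
      have hFM : ∀ s ∈ Icc 0 t, ∀ ξ, ‖F s ξ‖ₑ ≤ M := fun s hs => (hM s hs).2.2.2.2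
      have hB : ∀ k, (∀ s, 0 ≤ s → ∀ ξ, ‖itv κ F g k s ξ‖ₑ ≤ itm κ (nm F) (nm g) k s ξ) →
          Bd (itv κ F g k) t M := fun k hk s hs =>
        ⟨(lintegral_mono fun ξ => hk s hs.1 ξ).trans ((hM s hs).1 k),
          fun ξ => (hk s hs.1 ξ).trans ((hM s hs).2.1 k ξ)⟩
      exact VC1_step hNLB hNLM hNLL hκ hF hg (hmeas n) (hmeas (n + 1)) (hitm n).1
        (hitm (n + 1)).1 hFM hgB (hB n fun s hs ξ => (ih s hs ξ).1) (hB (n + 1) b1)
        (fun s hs ξ => (ih s hs.1 ξ).1) (fun s hs ξ => b1 s hs.1 ξ)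
        (fun s hs ξ => (ih s hs.1 ξ).2) ξ
  exact fun n => ⟨hmeas n, main n⟩

end Pool.Agent.Run7.h531.AX
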